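import Mathlib

set_option autoImplicit false

namespace Pool.Agent.Results.MP_22eee4_an.RealSequence

/-- The greedy integer sequence: `chi 1 = 1` and, for `n ≥ 2`, `chi n` is the maximum of
`(j + 1) (n - chi j)` over `1 ≤ j ≤ n - 1` (here `j` is written as `i + 1` with
`0 ≤ i < n - 1`). The value `chi 0 = 0` is not used. -/
def chi (n : ℕ) : ℤ :=
  if h : 2 ≤ n then
    (Finset.univ : Finset (Fin (n - 1))).sup' ⟨⟨0, by omega⟩, Finset.mem_univ _⟩
      (fun i => (((i : ℕ) : ℤ) + 2) * ((n : ℤ) - chi ((i : ℕ) + 1)))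
  else n
termination_by n
decreasing_by
  have := i.2
  omega

theorem chi_one : chi 1 = 1 := by
  rw [chi]
  simp

theorem chi_ge (n j : ℕ) (hj : 1 ≤ j) (hjn : j < n) :
    ((j : ℤ) + 1) * ((n : ℤ) - chi j) ≤ chi n := by
  rw [chi.eq_1 n]
  have h : 2 ≤ n := by omega
  rw [dif_pos h]
  have h1 := Finset.le_sup' (s := (Finset.univ : Finset (Fin (n - 1))))
    (f := fun i : Fin (n - 1) => (((i : ℕ) : ℤ) + 2) * ((n : ℤ) - chi ((i : ℕ) + 1)))
    (Finset.mem_univ ⟨j - 1, by omega⟩)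
  simp only at h1
  rw [Nat.sub_add_cancel hj] at h1
  have h2 : (((j - 1 : ℕ) : ℤ) + 2) = (j : ℤ) + 1 := by
    rw [Nat.cast_sub hj]; push_cast; ring
  rw [h2] at h1
  exact h1

theorem chi_le (n : ℕ) (hn : 2 ≤ n) (B : ℤ)
    (hB : ∀ j : ℕ, 1 ≤ j → j < n → ((j : ℤ) + 1) * ((n : ℤ) - chi j) ≤ B) : chi n ≤ B := by
  rw [chi.eq_1 n, dif_pos hn, Finset.sup'_le_iff]
  intro i _
  have h1 := hB (i + 1) (by omega) (by have := i.2; omega)
  push_cast at h1
  have : ((i : ℕ) : ℤ) + 1 + 1 = ((i : ℕ) : ℤ) + 2 := by ring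
  rw [this] at h1
  exact h1

theorem chi_two : chi 2 = 2 := by
  apply le_antisymm
  · refine chi_le 2 le_rfl 2 (fun j h1 h2 => ?_)
    obtain rfl : j = 1 := by omega
    rw [chi_one]; norm_num
  · have := chi_ge 2 1 le_rfl (by norm_num)
    rw [chi_one] at this
    norm_num at this
    exact this

theorem chi_three : chi 3 = 4 := by
  apply le_antisymm
  · refine chi_le 3 (by norm_num) 4 (fun j h1 h2 => ?_)
    interval_cases j
    · rw [chi_one]; norm_num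
    · rw [chi_two]; norm_num
  · have := chi_ge 3 1 le_rfl (by norm_num)
    rw [chi_one] at this
    norm_num at this
    exact this

theorem chi_four : chi 4 = 6 := by
  apply le_antisymm
  · refine chi_le 4 (by norm_num) 6 (fun j h1 h2 => ?_)
    interval_cases j
    · rw [chi_one]; norm_num
    · rw [chi_two]; norm_num
    · rw [chi_three]; norm_num
  · have := chi_ge 4 1 le_rfl (by norm_num)
    rw [chi_one] at this
    norm_num at this
    exact this

theorem le_chi (n : ℕ) (hn : 1 ≤ n) : (n : ℤ) ≤ chi n := by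
  rcases Nat.lt_or_ge 1 n with h | h
  · have := chi_ge n 1 le_rfl h
    rw [chi_one] at this
    push_cast at this
    have h2 : (2 : ℤ) ≤ n := by exact_mod_cast h
    linarith
  · obtain rfl : n = 1 := by omega
    rw [chi_one]; norm_num

theorem chi_le_sq (n : ℕ) (hn : 1 ≤ n) : chi n ≤ (n : ℤ) ^ 2 := by
  rcases Nat.lt_or_ge 1 n with h | h
  · refine chi_le n h _ (fun j h1 h2 => ?_)
    have h3 := le_chi j h1
    have h4 : (1 : ℤ) ≤ j := by exact_mod_cast h1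
    have h5 : (j : ℤ) + 1 ≤ n := by exact_mod_cast h2
    calc ((j : ℤ) + 1) * ((n : ℤ) - chi j) ≤ ((j : ℤ) + 1) * ((n : ℤ) - j) := by
          refine mul_le_mul_of_nonneg_left (by linarith) (by linarith)
      _ ≤ (n : ℤ) ^ 2 := by nlinarith
  · obtain rfl : n = 1 := by omega
    rw [chi_one]; norm_num

/-- `chi n` grows at least like a multiple of `n^(3/2)`. -/
theorem chi_growth (n : ℕ) (hn : 2 ≤ n) : ((n : ℝ) / 2) * Real.sqrt ((n : ℝ) / 2) ≤ (chi n : ℝ) := by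
  obtain ⟨j, hj⟩ : ∃ j, j = Nat.sqrt (n / 2) := ⟨_, rfl⟩
  have hj1 : 1 ≤ j := by
    rw [hj, Nat.le_sqrt]
    omega
  have hj2 : j * j ≤ n / 2 := by rw [hj]; exact Nat.sqrt_le _
  have hj3 : n / 2 < (j + 1) * (j + 1) := by rw [hj]; exact Nat.lt_succ_sqrt _
  have hj4 : n < 2 * ((j + 1) * (j + 1)) := by omega
  have hj5 : 2 * (j * j) ≤ n := by omega
  have hjn : j < n := by nlinarith
  have h1 := chi_ge n j hj1 hjn
  have h2 := chi_le_sq j hj1
  have h1r : ((j : ℝ) + 1) * ((n : ℝ) - (chi j : ℝ)) ≤ (chi n : ℝ) := by exact_mod_cast h1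
  have h2r : (chi j : ℝ) ≤ (j : ℝ) ^ 2 := by exact_mod_cast h2
  have h4r : (n : ℝ) < 2 * (((j : ℝ) + 1) * ((j : ℝ) + 1)) := by exact_mod_cast hj4
  have h5r : 2 * ((j : ℝ) * j) ≤ (n : ℝ) := by exact_mod_cast hj5
  have hs : Real.sqrt ((n : ℝ) / 2) ≤ (j : ℝ) + 1 := by
    rw [Real.sqrt_le_left (by positivity)]
    nlinarith
  have hn0 : (0 : ℝ) ≤ (n : ℝ) / 2 := by positivity
  calc ((n : ℝ) / 2) * Real.sqrt ((n : ℝ) / 2) ≤ ((n : ℝ) / 2) * ((j : ℝ) + 1) := by gcongr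
    _ = ((j : ℝ) + 1) * ((n : ℝ) - (n : ℝ) / 2) := by ring
    _ ≤ ((j : ℝ) + 1) * ((n : ℝ) - (chi j : ℝ)) := by
        have : (chi j : ℝ) ≤ (n : ℝ) / 2 := by nlinarith
        gcongr
    _ ≤ (chi n : ℝ) := h1r

theorem chi_pos (n : ℕ) (hn : 1 ≤ n) : (0 : ℝ) < (chi n : ℝ) := by
  have h1 := le_chi n hn
  have h2 : (0 : ℤ) < chi n := by
    have : (1 : ℤ) ≤ n := by exact_mod_cast hn
    linarith
  exact_mod_cast h2

theorem summable_chi : Summable (fun k : ℕ => 1 / (chi (k + 1) : ℝ)) := by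
  rw [← summable_nat_add_iff 1]
  have h1 : Summable (fun k : ℕ => (2 : ℝ) ^ (3 / 2 : ℝ) * (1 / ((k + 2 : ℕ) : ℝ) ^ (3 / 2 : ℝ))) := by
    refine Summable.mul_left _ ?_
    rw [summable_nat_add_iff (f := fun k : ℕ => 1 / ((k : ℕ) : ℝ) ^ (3 / 2 : ℝ)) 2]
    exact Real.summable_one_div_nat_rpow.mpr (by norm_num)
  refine Summable.of_nonneg_of_le (fun k => ?_) (fun k => ?_) h1
  · have := chi_pos (k + 1 + 1) (by omega)
    positivity
  · have h2 := chi_growth (k + 2) (by omega)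
    have h3 : (((k + 2 : ℕ) : ℝ) / 2) * Real.sqrt (((k + 2 : ℕ) : ℝ) / 2) =
        ((k + 2 : ℕ) : ℝ) ^ (3 / 2 : ℝ) / (2 : ℝ) ^ (3 / 2 : ℝ) := by
      have h0 : (0 : ℝ) < ((k + 2 : ℕ) : ℝ) / 2 := by positivity
      rw [← Real.div_rpow (by positivity) (by norm_num), Real.sqrt_eq_rpow]
      nth_rewrite 1 [← Real.rpow_one (((k + 2 : ℕ) : ℝ) / 2)]
      rw [← Real.rpow_add h0]
      norm_num
    rw [h3] at h2
    have h4 : (0 : ℝ) < ((k + 2 : ℕ) : ℝ) ^ (3 / 2 : ℝ) := by positivity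
    have h5 : (0 : ℝ) < (2 : ℝ) ^ (3 / 2 : ℝ) := by positivity
    have h6 : (0 : ℝ) < ((k + 2 : ℕ) : ℝ) ^ (3 / 2 : ℝ) / (2 : ℝ) ^ (3 / 2 : ℝ) := by positivity
    calc 1 / (chi (k + 1 + 1) : ℝ) ≤ 1 / (((k + 2 : ℕ) : ℝ) ^ (3 / 2 : ℝ) / (2 : ℝ) ^ (3 / 2 : ℝ)) :=
          one_div_le_one_div_of_le h6 h2
      _ = (2 : ℝ) ^ (3 / 2 : ℝ) * (1 / ((k + 2 : ℕ) : ℝ) ^ (3 / 2 : ℝ)) := by
          field_simp

/-- The counterexample: `2/3, 8/3, 14/3, 20/3` and then `chi 5, chi 6, …`. -/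
noncomputable def a (n : ℕ) : ℝ := if n ≤ 4 then 2 * (n : ℝ) - 4 / 3 else (chi n : ℝ)

theorem a_small (n : ℕ) (h : n ≤ 4) : a n = 2 * (n : ℝ) - 4 / 3 := by
  unfold a; rw [if_pos h]

theorem a_large (n : ℕ) (h : 5 ≤ n) : a n = (chi n : ℝ) := by
  unfold a; rw [if_neg (by omega)]

theorem chi_ge_real (n j : ℕ) (hj : 1 ≤ j) (hjn : j < n) :
    ((j : ℝ) + 1) * ((n : ℝ) - (chi j : ℝ)) ≤ (chi n : ℝ) := by
  exact_mod_cast chi_ge n j hj hjn

theorem a_ineq (i j : ℕ) (hi : 1 ≤ i) (hj : 1 ≤ j) :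
    ((j : ℝ) + 1) * i ≤ ((j : ℝ) + 1) * a j + a i := by
  have hir : (1 : ℝ) ≤ i := by exact_mod_cast hi
  have hjr : (1 : ℝ) ≤ j := by exact_mod_cast hj
  rcases Nat.lt_or_ge 4 j with h4j | h4j
  · rw [a_large j h4j]
    rcases Nat.lt_or_ge 4 i with h4i | h4i
    · rw [a_large i h4i]
      rcases Nat.lt_or_ge j i with hji | hji
      · have := chi_ge_real i j hj hji
        linarith
      · have h1 : (j : ℝ) ≤ (chi j : ℝ) := by exact_mod_cast le_chi j hj
        have h2 : (i : ℝ) ≤ (j : ℝ) := by exact_mod_cast hji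
        have h3 := chi_pos i hi
        have h4 : ((j : ℝ) + 1) * i ≤ ((j : ℝ) + 1) * (chi j : ℝ) := by gcongr; linarith
        linarith
    · rw [a_small i h4i]
      have h1 : (j : ℝ) ≤ (chi j : ℝ) := by exact_mod_cast le_chi j hj
      have h2 : (i : ℝ) ≤ (j : ℝ) := by
        have : i ≤ j := by omega
        exact_mod_cast this
      have h4 : ((j : ℝ) + 1) * i ≤ ((j : ℝ) + 1) * (chi j : ℝ) := by gcongr; linarith
      linarith
  · rw [a_small j h4j]
    rcases Nat.lt_or_ge 4 i with h4i | h4i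
    · rw [a_large i h4i]
      have hi5 : (5 : ℝ) ≤ i := by exact_mod_cast h4i
      have e2 := chi_ge_real i 2 (by norm_num) (by omega)
      have e3 := chi_ge_real i 3 (by norm_num) (by omega)
      have e4 := chi_ge_real i 4 (by norm_num) (by omega)
      rw [chi_two] at e2
      rw [chi_three] at e3
      rw [chi_four] at e4
      push_cast at e2 e3 e4
      interval_cases j <;> push_cast <;> linarith
    · rw [a_small i h4i]
      interval_cases j <;> interval_cases i <;> norm_num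

/-- The real sequence `a` satisfies the `χ` inequality, and its sum of reciprocals is strictly
larger than the one of the greedy sequence `chi`. -/
theorem result : ∃ a : ℕ → ℝ,
    (∀ i j : ℕ, 1 ≤ i → 1 ≤ j → ((j : ℝ) + 1) * i ≤ ((j : ℝ) + 1) * a j + a i) ∧
    ∑' k : ℕ, ENNReal.ofReal (1 / (chi (k + 1) : ℝ)) < ∑' k : ℕ, ENNReal.ofReal (1 / a (k + 1)) := by
  refine ⟨a, a_ineq, ?_⟩
  have hs := summable_chi
  have htail : ∀ k : ℕ, 1 / a (k + 4 + 1) = 1 / (chi (k + 4 + 1) : ℝ) := by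
    intro k
    rw [a_large _ (by omega)]
  have hs4 : Summable (fun k : ℕ => 1 / (chi (k + 4 + 1) : ℝ)) :=
    (summable_nat_add_iff (f := fun k : ℕ => 1 / (chi (k + 1) : ℝ)) 4).mpr hs
  have hsa4 : Summable (fun k : ℕ => 1 / a (k + 4 + 1)) := by
    simp_rw [htail]
    exact hs4
  have hsa : Summable (fun k : ℕ => 1 / a (k + 1)) :=
    (summable_nat_add_iff (f := fun k : ℕ => 1 / a (k + 1)) 4).mp hsa4
  have hpa : ∀ k : ℕ, 0 ≤ 1 / a (k + 1) := by
    intro k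
    rcases Nat.lt_or_ge 4 (k + 1) with h | h
    · rw [a_large _ h]
      have := chi_pos (k + 1) (by omega)
      positivity
    · rw [a_small _ h]
      have : (0 : ℝ) ≤ k := Nat.cast_nonneg k
      push_cast
      apply div_nonneg zero_le_one
      linarith
  have hpc : ∀ k : ℕ, 0 ≤ 1 / (chi (k + 1) : ℝ) := by
    intro k
    have := chi_pos (k + 1) (by omega)
    positivity
  rw [← ENNReal.ofReal_tsum_of_nonneg hpa hsa, ← ENNReal.ofReal_tsum_of_nonneg hpc hs]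
  have h1 := hs.sum_add_tsum_nat_add 4
  have h2 := hsa.sum_add_tsum_nat_add 4
  have h3 : ∑' k : ℕ, 1 / a (k + 4 + 1) = ∑' k : ℕ, 1 / (chi (k + 4 + 1) : ℝ) :=
    tsum_congr htail
  have h4 : ∑ k ∈ Finset.range 4, 1 / (chi (k + 1) : ℝ) < ∑ k ∈ Finset.range 4, 1 / a (k + 1) := by
    simp only [Finset.sum_range_succ, Finset.sum_range_zero, zero_add, Nat.reduceAdd]
    rw [chi_one, chi_two, chi_three, chi_four, a_small 1 (by norm_num), a_small 2 (by norm_num),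
      a_small 3 (by norm_num), a_small 4 (by norm_num)]
    norm_num
  have h5 : ∑' k : ℕ, 1 / (chi (k + 1) : ℝ) < ∑' k : ℕ, 1 / a (k + 1) := by
    rw [← h1, ← h2, h3]
    linarith
  rw [ENNReal.ofReal_lt_ofReal_iff]
  · exact h5
  · exact lt_of_le_of_lt (tsum_nonneg hpc) h5

end Pool.Agent.Results.MP_22eee4_an.RealSequence
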